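import Mathlib
import Pool.Agent.Results.MP_705b7e_co.StarForestBounds

/-!
Asymptotics of the minimum Ramsey number of a graph on `n` vertices without isolated vertices:
`f n = n + log₂ n + O(log log n)`.

Upper bound: the star forest with stars of sizes `2 ^ j + 1` (`j < k - 1`) and one further star,
packed with the lemma `ramsey_starForest`. Lower bound: a counting (random colouring) argument for
graphs with a small dominating set, and a colouring by a small cover for all others.
-/

namespace Pool.Agent.Results.MP_624632_co.LogAsymptotics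


open Finset Classical

/-- Every colouring of the edges of the complete graph on `N` vertices with two colours contains a
monochromatic copy of `G`: `R` is the graph of the edges of the first colour and `Rᶜ` that of the
second colour. -/
def Arrows (N : ℕ) {V : Type} (G : SimpleGraph V) : Prop :=
  ∀ R : SimpleGraph (Fin N), G.IsContained R ∨ G.IsContained Rᶜ

/-- `f n = min r(G)` over the graphs `G` on exactly `n` vertices without isolated vertices, where
`r(G)` is the least `N` with `Arrows N G`. -/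
noncomputable def f (n : ℕ) : ℕ :=
  sInf {r | ∃ G : SimpleGraph (Fin n), (∀ v, ∃ w, G.Adj v w) ∧ IsLeast {N | Arrows N G} r}

open Pool.Agent.Results.MP_705b7e_co.StarForestBounds in
/-- The star sizes: the last `k - 1` stars have sizes `2 ^ (k - i - 1) + 1`. -/
theorem star_arrows (k a : ℕ) (hk : 1 ≤ k) (ha : a ≤ 2 ^ (k - 1) + 2) (N : ℕ)
    (hN : N = (a + 2 ^ (k - 1) + 2 * k - 2) + k + 3) (R : SimpleGraph (Fin N)) :
    (starForest k (fun i => if i = 0 then a else 2 ^ (k - i - 1) + 1)).IsContained R ∨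
    (starForest k (fun i => if i = 0 then a else 2 ^ (k - i - 1) + 1)).IsContained Rᶜ := by
  set s : ℕ → ℕ := fun i => if i = 0 then a else 2 ^ (k - i - 1) + 1 with hs
  set ρ : ℕ → ℕ := fun i => if i = 0 then a + 2 ^ (k - 1) + 2 * k - 2
    else 2 ^ (k - i) + 2 * (k - i) - 1 with hρdef
  have hρ : ∀ i < k, ρ i = ρ (i + 1) + s i + 1 := by
    intro i hi
    rcases Nat.eq_zero_or_pos i with h0 | h0
    · subst h0
      simp only [hρdef, hs, if_true, Nat.zero_add, one_ne_zero, if_false]
      have : 1 ≤ 2 ^ (k - 1) := Nat.one_le_two_pow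
      omega
    · simp only [hρdef, hs, if_neg (show i ≠ 0 by omega), if_neg (show i + 1 ≠ 0 by omega)]
      obtain ⟨j, hj⟩ : ∃ j, k - i = j + 1 := ⟨k - i - 1, by omega⟩
      have e1 : k - (i + 1) = j := by omega
      have e2 : k - i - 1 = j := by omega
      rw [e1, e2, hj, pow_succ]
      have : 1 ≤ 2 ^ j := Nat.one_le_two_pow
      omega
  have hc : ∀ i < k, 2 * (s i + (k - i)) + k ≤ ρ i + (k + 3) + 1 := by
    intro i hi
    rcases Nat.eq_zero_or_pos i with h0 | h0
    · subst h0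
      simp only [hρdef, hs, if_true]
      have : 1 ≤ 2 ^ (k - 1) := Nat.one_le_two_pow
      omega
    · simp only [hρdef, hs, if_neg (show i ≠ 0 by omega)]
      obtain ⟨j, hj⟩ : ∃ j, k - i = j + 1 := ⟨k - i - 1, by omega⟩
      have e2 : k - i - 1 = j := by omega
      rw [e2, hj, pow_succ]
      have : 1 ≤ 2 ^ j := Nat.one_le_two_pow
      omega
  have hρ0 : ρ 0 = a + 2 ^ (k - 1) + 2 * k - 2 := by simp [hρdef]
  refine ramsey_starForest k (k + 3) s ρ hρ hc ?_ ?_ R
  · rw [hρ0, Fintype.card_fin, hN]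
    omega
  · rw [Fintype.card_fin, hN]; omega

open Pool.Agent.Results.MP_705b7e_co.StarForestBounds in
theorem upper_aux (k a : ℕ) (hk : 1 ≤ k) (ha1 : 1 ≤ a) (ha : a ≤ 2 ^ (k - 1) + 2) :
    ∃ G : SimpleGraph (Fin (a + 2 ^ (k - 1) + 2 * k - 2)), (∀ v, ∃ w, G.Adj v w) ∧
      Arrows ((a + 2 ^ (k - 1) + 2 * k - 2) + k + 3) G := by
  set s : ℕ → ℕ := fun i => if i = 0 then a else 2 ^ (k - i - 1) + 1 with hs
  have hsum : ∀ j, ∑ l ∈ range j, 2 ^ l = 2 ^ j - 1 := by
    intro j
    induction j with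
    | zero => simp
    | succ j ih =>
      rw [Finset.sum_range_succ, ih, pow_succ]
      have : 1 ≤ 2 ^ j := Nat.one_le_two_pow
      omega
  have hcard : Fintype.card (Σ i : Fin k, Option (Fin (s i))) = a + 2 ^ (k - 1) + 2 * k - 2 := by
    rw [card_vertices]
    obtain ⟨j, rfl⟩ : ∃ j, k = j + 1 := ⟨k - 1, by omega⟩
    rw [Finset.sum_range_succ']
    have e1 : s 0 = a := by simp [hs]
    have e2 : ∑ l ∈ range j, s (l + 1) = ∑ l ∈ range j, (2 ^ (j - 1 - l) + 1) := by
      apply Finset.sum_congr rfl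
      intro l hl
      simp only [hs, if_neg (show l + 1 ≠ 0 by omega)]
      congr 2
      omega
    rw [e1, e2, Finset.sum_add_distrib, Finset.sum_range_reflect (fun l => 2 ^ l) j, hsum]
    simp only [Finset.sum_const, card_range, smul_eq_mul, mul_one, Nat.add_sub_cancel]
    have : 1 ≤ 2 ^ j := Nat.one_le_two_pow
    omega
  have hpos : ∀ i, 1 ≤ s i := by
    intro i
    simp only [hs]
    have : 1 ≤ 2 ^ (k - i - 1) := Nat.one_le_two_pow
    split_ifs <;> omega
  let e : (Σ i : Fin k, Option (Fin (s i))) ≃ Fin (a + 2 ^ (k - 1) + 2 * k - 2) :=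
    Fintype.equivFinOfCardEq hcard
  let F := starForest k s
  let G : SimpleGraph (Fin (a + 2 ^ (k - 1) + 2 * k - 2)) := F.comap e.symm
  have iso : F ≃g G := 
    { toEquiv := e
      map_rel_iff' := by
        intro x y
        show F.Adj (e.symm (e x)) (e.symm (e y)) ↔ F.Adj x y
        rw [Equiv.symm_apply_apply, Equiv.symm_apply_apply] }
  refine ⟨G, ?_, ?_⟩
  · intro v
    have hnb : ∀ x : (Σ i : Fin k, Option (Fin (s i))), ∃ y, F.Adj x y := by
      rintro ⟨i, x⟩
      rcases x with _ | x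
      · exact ⟨⟨i, some ⟨0, hpos i⟩⟩, starForest_adj k s i _⟩
      · exact ⟨⟨i, none⟩, (starForest_adj k s i x).symm⟩
    obtain ⟨y, hy⟩ := hnb (e.symm v)
    refine ⟨e y, ?_⟩
    show F.Adj (e.symm v) (e.symm (e y))
    rw [Equiv.symm_apply_apply]
    exact hy
  · intro R
    have hGF : G.IsContained F := ⟨iso.symm.toCopy⟩
    rcases star_arrows k a hk ha _ rfl R with h | h
    · exact Or.inl (hGF.trans h)
    · exact Or.inr (hGF.trans h)

/-- `f n ≤ n + k + 3` whenever `2 ^ (k - 1) + 2 k - 1 ≤ n ≤ 2 ^ k + 2 k`. -/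
theorem upper_k (n k : ℕ) (hk : 1 ≤ k) (h1 : 2 ^ (k - 1) + 2 * k - 1 ≤ n) (h2 : n ≤ 2 ^ k + 2 * k) :
    ∃ G : SimpleGraph (Fin n), (∀ v, ∃ w, G.Adj v w) ∧ Arrows (n + k + 3) G := by
  have hp : 1 ≤ 2 ^ (k - 1) := Nat.one_le_two_pow
  have h2' : 2 ^ k = 2 * 2 ^ (k - 1) := by
    obtain ⟨j, rfl⟩ : ∃ j, k = j + 1 := ⟨k - 1, by omega⟩
    simp [pow_succ, mul_comm]
  obtain ⟨a, ha⟩ : ∃ a, n = a + 2 ^ (k - 1) + 2 * k - 2 := ⟨n + 2 - 2 * k - 2 ^ (k - 1), by omega⟩
  subst ha
  exact upper_aux k a hk (by omega) (by omega)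

theorem exists_k (n : ℕ) (hn : 2 ≤ n) :
    ∃ k, 1 ≤ k ∧ 2 ^ (k - 1) + 2 * k - 1 ≤ n ∧ n ≤ 2 ^ k + 2 * k := by
  have hex : ∃ k, n ≤ 2 ^ k + 2 * k := ⟨n, by
    have : 1 ≤ 2 ^ n := Nat.one_le_two_pow
    omega⟩
  refine ⟨Nat.find hex, ?_, ?_, Nat.find_spec hex⟩
  · rw [Nat.one_le_iff_ne_zero]
    intro h0
    have := Nat.find_spec hex
    rw [h0] at this
    simp at this
    omega
  · by_contra hcon
    push Not at hcon
    have hk1 : 1 ≤ Nat.find hex := by
      rw [Nat.one_le_iff_ne_zero]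
      intro h0
      have := Nat.find_spec hex
      rw [h0] at this
      simp at this
      omega
    have := Nat.find_min hex (m := Nat.find hex - 1) (by omega)
    have hp : 1 ≤ 2 ^ (Nat.find hex - 1) := Nat.one_le_two_pow
    omega

/-- For every `n ≥ 2`, some graph on `n` vertices without isolated vertices satisfies
`r(G) ≤ n + ⌊log₂ n⌋ + 4`. -/
theorem upper (n : ℕ) (hn : 2 ≤ n) :
    ∃ G : SimpleGraph (Fin n), (∀ v, ∃ w, G.Adj v w) ∧ ∃ r, IsLeast {N | Arrows N G} r ∧
      r ≤ n + Nat.log 2 n + 4 := by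
  obtain ⟨k, hk, h1, h2⟩ := exists_k n hn
  obtain ⟨G, hG, hA⟩ := upper_k n k hk h1 h2
  refine ⟨G, hG, sInf {N | Arrows N G}, ⟨Nat.sInf_mem ⟨_, hA⟩, fun N hN => Nat.sInf_le hN⟩, ?_⟩
  have h3 : sInf {N | Arrows N G} ≤ n + k + 3 := Nat.sInf_le hA
  have h4 : k - 1 ≤ Nat.log 2 n := by
    apply Nat.le_log_of_pow_le (by norm_num)
    omega
  omega

theorem f_le (n : ℕ) (hn : 2 ≤ n) : f n ≤ n + Nat.log 2 n + 4 := by
  obtain ⟨G, hG, r, hr, hle⟩ := upper n hn
  exact le_trans (Nat.sInf_le ⟨G, hG, hr⟩) hle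




section Count

variable {N : ℕ}

/-- Colourings for which every vertex of `T` sends an edge of colour `b` to `D`. -/
noncomputable def A (D T : Finset (Fin N)) (b : Bool) : Finset (Sym2 (Fin N) → Bool) :=
  univ.filter (fun ω => ∀ v ∈ T, ∃ u ∈ D, ω s(u, v) = b)

theorem A_mono {D T T' : Finset (Fin N)} {b : Bool} (h : T' ⊆ T) : A D T b ⊆ A D T' b := by
  intro ω hω
  simp only [A, mem_filter, mem_univ, true_and] at hω ⊢
  exact fun v hv => hω v (h hv)

theorem A_step (D T : Finset (Fin N)) (b : Bool) (v : Fin N) (hvT : v ∉ T)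
    (hDT : Disjoint D T) :
    2 ^ D.card * (A D (insert v T) b).card ≤ (2 ^ D.card - 1) * (A D T b).card := by
  set P := A D T b with hP
  set Q := A D (insert v T) b with hQ
  set B := P.filter (fun ω => ∀ u ∈ D, ω s(u, v) ≠ b) with hB
  have hQP : Q = P.filter (fun ω => ¬ ∀ u ∈ D, ω s(u, v) ≠ b) := by
    ext ω
    simp only [hQ, hP, A, mem_filter, mem_univ, true_and, mem_insert, forall_eq_or_imp, not_forall,
      not_not, ne_eq]
    constructor
    · rintro ⟨⟨u, hu, huv⟩, h2⟩
      exact ⟨h2, u, hu, huv⟩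
    · rintro ⟨h2, u, hu, huv⟩
      exact ⟨⟨u, hu, huv⟩, h2⟩
  have hsum : B.card + Q.card = P.card := by
    rw [hQP, hB]
    exact Finset.card_filter_add_card_filter_not _
  have hinj : P.card ≤ B.card * 2 ^ D.card := by
    have hc : (Finset.univ : Finset (D → Bool)).card = 2 ^ D.card := by
      rw [Finset.card_univ, Fintype.card_fun, Fintype.card_bool, Fintype.card_coe]
    rw [← hc, ← Finset.card_product]
    let mod : (Sym2 (Fin N) → Bool) → (Sym2 (Fin N) → Bool) := fun ω e =>
      if ∃ u ∈ D, e = s(u, v) then !b else ω e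
    refine Finset.card_le_card_of_injOn (fun ω => (mod ω, fun u : D => ω s((u : Fin N), v))) ?_ ?_
    · intro ω hω
      have hω' : ∀ w ∈ T, ∃ u ∈ D, ω s(u, w) = b := by
        have h2 : ω ∈ A D T b := hω
        simpa [A] using h2
      have h3 : mod ω ∈ B := by
        rw [hB, mem_filter, hP]
        constructor
        · simp only [A, mem_filter, mem_univ, true_and]
          intro w hw
          obtain ⟨u, hu, huw⟩ := hω' w hw
          refine ⟨u, hu, ?_⟩
          have hne : ¬ ∃ u' ∈ D, s(u, w) = s(u', v) := by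
            rintro ⟨u', hu', he⟩
            rw [Sym2.eq_iff] at he
            rcases he with ⟨_, h⟩ | ⟨_, h⟩
            · exact hvT (h ▸ hw)
            · exact (Finset.disjoint_left.mp hDT hu') (h ▸ hw)
          show (if ∃ u' ∈ D, s(u, w) = s(u', v) then !b else ω s(u, w)) = b
          rw [if_neg hne]
          exact huw
        · intro u hu
          have hex : ∃ u' ∈ D, s(u, v) = s(u', v) := ⟨u, hu, rfl⟩
          show (if ∃ u' ∈ D, s(u, v) = s(u', v) then !b else ω s(u, v)) ≠ b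
          rw [if_pos hex]
          cases b <;> simp
      exact Finset.mem_coe.mpr (Finset.mem_product.mpr ⟨h3, Finset.mem_univ _⟩)
    · intro ω hω ω' hω' heq
      have h1 : mod ω = mod ω' := congrArg Prod.fst heq
      have h2 : (fun u : D => ω s((u : Fin N), v)) = fun u : D => ω' s((u : Fin N), v) :=
        congrArg Prod.snd heq
      funext e
      by_cases he : ∃ u ∈ D, e = s(u, v)
      · obtain ⟨u, hu, rfl⟩ := he
        exact congrFun h2 ⟨u, hu⟩
      · have h3 := congrFun h1 e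
        have e1 : mod ω e = ω e := if_neg he
        have e2 : mod ω' e = ω' e := if_neg he
        rw [e1, e2] at h3
        exact h3
  have hpos : 1 ≤ 2 ^ D.card := Nat.one_le_two_pow
  obtain ⟨c, hc⟩ : ∃ c, 2 ^ D.card = c + 1 := ⟨2 ^ D.card - 1, by omega⟩
  rw [hc] at hinj ⊢
  simp only [Nat.add_sub_cancel]
  nlinarith

theorem A_card (D : Finset (Fin N)) (b : Bool) (T : Finset (Fin N)) (hDT : Disjoint D T) :
    (2 ^ D.card) ^ T.card * (A D T b).card ≤
      (2 ^ D.card - 1) ^ T.card * Fintype.card (Sym2 (Fin N) → Bool) := by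
  induction T using Finset.induction_on with
  | empty =>
    simp only [card_empty, pow_zero, one_mul]
    exact Finset.card_le_univ _
  | insert v T hv ih =>
    rw [Finset.disjoint_insert_right] at hDT
    have h1 := A_step D T b v hv hDT.2
    have h2 := ih hDT.2
    rw [Finset.card_insert_of_notMem hv, pow_succ, pow_succ]
    calc (2 ^ D.card) ^ T.card * 2 ^ D.card * (A D (insert v T) b).card
        = (2 ^ D.card) ^ T.card * (2 ^ D.card * (A D (insert v T) b).card) := by ring
      _ ≤ (2 ^ D.card) ^ T.card * ((2 ^ D.card - 1) * (A D T b).card) :=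
          Nat.mul_le_mul_left _ h1
      _ = (2 ^ D.card - 1) * ((2 ^ D.card) ^ T.card * (A D T b).card) := by ring
      _ ≤ (2 ^ D.card - 1) * ((2 ^ D.card - 1) ^ T.card * Fintype.card (Sym2 (Fin N) → Bool)) :=
          Nat.mul_le_mul_left _ h2
      _ = (2 ^ D.card - 1) ^ T.card * (2 ^ D.card - 1) *
            Fintype.card (Sym2 (Fin N) → Bool) := by ring

/-- Colourings in which some `m`-set together with an exceptional set of size `x` dominates in
colour `b`. -/
noncomputable def Bad (N m x : ℕ) (b : Bool) : Finset (Sym2 (Fin N) → Bool) :=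
  univ.filter (fun ω => ∃ D X : Finset (Fin N), D.card = m ∧ X.card = x ∧
    ∀ v, v ∉ D → v ∉ X → ∃ u ∈ D, ω s(u, v) = b)

theorem bad_card (m x M : ℕ) (hM : M + m + x ≤ N) (b : Bool) :
    (2 ^ m) ^ M * (Bad N m x b).card ≤
      N ^ (m + x) * ((2 ^ m - 1) ^ M * Fintype.card (Sym2 (Fin N) → Bool)) := by
  -- choose for each pair a set `T` of size `M`
  have hT : ∀ D X : Finset (Fin N), ∃ T : Finset (Fin N), D.card = m → X.card = x →
      T.card = M ∧ Disjoint D T ∧ Disjoint X T := by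
    intro D X
    by_cases hD : D.card = m
    · by_cases hX : X.card = x
      · have h1 : M ≤ (univ \ (D ∪ X)).card := by
          have h2 := Finset.card_union_le D X
          have h3 : (univ \ (D ∪ X)).card = N - (D ∪ X).card := by
            rw [Finset.card_sdiff_of_subset (Finset.subset_univ _), Finset.card_univ,
              Fintype.card_fin]
          omega
        obtain ⟨T, hTs, hTc⟩ := Finset.exists_subset_card_eq h1
        refine ⟨T, fun _ _ => ⟨hTc, ?_, ?_⟩⟩
        · rw [Finset.disjoint_left]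
          intro v hv hvT
          have := hTs hvT
          simp only [mem_sdiff, mem_union, mem_univ, true_and] at this
          exact this (Or.inl hv)
        · rw [Finset.disjoint_left]
          intro v hv hvT
          have := hTs hvT
          simp only [mem_sdiff, mem_union, mem_univ, true_and] at this
          exact this (Or.inr hv)
      · exact ⟨∅, fun _ h => absurd h hX⟩
    · exact ⟨∅, fun h => absurd h hD⟩
  choose T hT using hT
  have hsub : Bad N m x b ⊆ ((powersetCard m univ) ×ˢ (powersetCard x univ)).biUnion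
      (fun p : Finset (Fin N) × Finset (Fin N) => A p.1 (T p.1 p.2) b) := by
    intro ω hω
    simp only [Bad, mem_filter, mem_univ, true_and] at hω
    obtain ⟨D, X, hD, hX, h⟩ := hω
    rw [mem_biUnion]
    refine ⟨(D, X), ?_, ?_⟩
    · rw [mem_product, mem_powersetCard, mem_powersetCard]
      exact ⟨⟨subset_univ _, hD⟩, ⟨subset_univ _, hX⟩⟩
    · obtain ⟨_, h2, h3⟩ := hT D X hD hX
      simp only [A, mem_filter, mem_univ, true_and]
      intro v hv
      exact h v (fun h' => Finset.disjoint_left.mp h2 h' hv)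
        (fun h' => Finset.disjoint_left.mp h3 h' hv)
  have hcard : (Bad N m x b).card ≤ ∑ p ∈ (powersetCard m univ) ×ˢ (powersetCard x univ),
      (A p.1 (T p.1 p.2) b).card :=
    (Finset.card_le_card hsub).trans Finset.card_biUnion_le
  calc (2 ^ m) ^ M * (Bad N m x b).card
      ≤ (2 ^ m) ^ M * ∑ p ∈ (powersetCard m univ) ×ˢ (powersetCard x univ),
          (A p.1 (T p.1 p.2) b).card := Nat.mul_le_mul_left _ hcard
    _ = ∑ p ∈ (powersetCard m univ) ×ˢ (powersetCard x univ),
          (2 ^ m) ^ M * (A p.1 (T p.1 p.2) b).card := Finset.mul_sum _ _ _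
    _ ≤ ∑ p ∈ (powersetCard m (univ : Finset (Fin N))) ×ˢ (powersetCard x (univ : Finset (Fin N))),
          ((2 ^ m - 1) ^ M * Fintype.card (Sym2 (Fin N) → Bool)) := by
        apply Finset.sum_le_sum
        intro p hp
        rw [mem_product, mem_powersetCard, mem_powersetCard] at hp
        obtain ⟨h1, h2, h3⟩ := hT p.1 p.2 hp.1.2 hp.2.2
        have := A_card p.1 b (T p.1 p.2) h2
        rw [h1, hp.1.2] at this
        exact this
    _ = (N.choose m * N.choose x) * ((2 ^ m - 1) ^ M * Fintype.card (Sym2 (Fin N) → Bool)) := by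
        rw [Finset.sum_const, Finset.card_product, Finset.card_powersetCard,
          Finset.card_powersetCard, Finset.card_univ, Fintype.card_fin, smul_eq_mul]
    _ ≤ N ^ (m + x) * ((2 ^ m - 1) ^ M * Fintype.card (Sym2 (Fin N) → Bool)) := by
        apply Nat.mul_le_mul_right
        rw [pow_add]
        exact Nat.mul_le_mul (Nat.choose_le_pow N m) (Nat.choose_le_pow N x)

/-- A colouring in which in neither colour an `m`-set dominates all but `x` vertices. -/
theorem exists_good (m x M : ℕ) (hM : M + m + x ≤ N)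
    (hlt : 2 * (N ^ (m + x) * (2 ^ m - 1) ^ M) < (2 ^ m) ^ M) :
    ∃ ω : Sym2 (Fin N) → Bool, ∀ b : Bool, ω ∉ Bad N m x b := by
  by_contra hcon
  push Not at hcon
  have hcover : (univ : Finset (Sym2 (Fin N) → Bool)) ⊆ Bad N m x true ∪ Bad N m x false := by
    intro ω _
    obtain ⟨b, hb⟩ := hcon ω
    rw [mem_union]
    cases b
    · exact Or.inr hb
    · exact Or.inl hb
  have h1 := (Finset.card_le_card hcover).trans (Finset.card_union_le _ _)
  rw [Finset.card_univ] at h1
  have h2 := bad_card (N := N) m x M hM true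
  have h3 := bad_card (N := N) m x M hM false
  set K := Fintype.card (Sym2 (Fin N) → Bool) with hK
  have hKpos : 0 < K := Fintype.card_pos
  have h4 : (2 ^ m) ^ M * K ≤ 2 * (N ^ (m + x) * (2 ^ m - 1) ^ M) * K := by
    calc (2 ^ m) ^ M * K ≤ (2 ^ m) ^ M * ((Bad N m x true).card + (Bad N m x false).card) :=
          Nat.mul_le_mul_left _ h1
      _ = (2 ^ m) ^ M * (Bad N m x true).card + (2 ^ m) ^ M * (Bad N m x false).card := by ring
      _ ≤ N ^ (m + x) * ((2 ^ m - 1) ^ M * K) + N ^ (m + x) * ((2 ^ m - 1) ^ M * K) :=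
          Nat.add_le_add h2 h3
      _ = 2 * (N ^ (m + x) * (2 ^ m - 1) ^ M) * K := by ring
  have h5 := Nat.le_of_mul_le_mul_right h4 hKpos
  omega

end Count

/-- The graph of a colouring. -/
def gr {N : ℕ} (ω : Sym2 (Fin N) → Bool) : SimpleGraph (Fin N) where
  Adj u v := u ≠ v ∧ ω s(u, v) = true
  symm := ⟨fun u v h => ⟨h.1.symm, by rw [Sym2.eq_swap]; exact h.2⟩⟩
  loopless := ⟨fun u h => h.1 rfl⟩

theorem lower_aux (n m : ℕ) (hm : 1 ≤ m) (hmn : m ≤ n)
    (hlt : 2 * ((n + m - 1) ^ (m + (m - 1)) * (2 ^ m - 1) ^ (n - m)) < (2 ^ m) ^ (n - m))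
    (G : SimpleGraph (Fin n)) (hG : ∀ v, ∃ w, G.Adj v w) : ¬ Arrows (n + m - 1) G := by
  intro hA
  by_cases hdom : ∃ D₀ : Finset (Fin n), D₀.card ≤ m ∧ ∀ y, y ∉ D₀ → ∃ z ∈ D₀, G.Adj y z
  · -- random colouring
    obtain ⟨D₀, hD₀, hd⟩ := hdom
    obtain ⟨ω, hω⟩ := exists_good (N := n + m - 1) m (m - 1) (n - m) (by omega) hlt
    have key : ∀ b : Bool, ∀ φ : Fin n → Fin (n + m - 1), Function.Injective φ →
        (∀ y z, G.Adj y z → ω s(φ y, φ z) = b) → False := by
      intro b φ hφ hadj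
      apply hω b
      simp only [Bad, mem_filter, mem_univ, true_and]
      have h1 : (D₀.image φ).card ≤ m := Finset.card_image_le.trans hD₀
      have h2 : m ≤ (univ : Finset (Fin (n + m - 1))).card := by
        rw [Finset.card_univ, Fintype.card_fin]; omega
      obtain ⟨D, hDsub, _, hDcard⟩ := Finset.exists_subsuperset_card_eq
        (Finset.subset_univ (D₀.image φ)) h1 h2
      refine ⟨D, univ \ (univ.image φ), hDcard, ?_, ?_⟩
      · rw [Finset.card_sdiff_of_subset (Finset.subset_univ _), Finset.card_univ,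
          Fintype.card_fin, Finset.card_image_of_injective _ hφ, Finset.card_univ,
          Fintype.card_fin]
        omega
      · intro v hvD hvX
        simp only [mem_sdiff, mem_univ, true_and, mem_image, not_not] at hvX
        obtain ⟨y, rfl⟩ := hvX
        have hy : y ∉ D₀ := fun h => hvD (hDsub (Finset.mem_image_of_mem φ h))
        obtain ⟨z, hz, hyz⟩ := hd y hy
        exact ⟨φ z, hDsub (Finset.mem_image_of_mem φ hz), hadj z y hyz.symm⟩
    rcases hA (gr ω) with hφ | hφ
    · obtain ⟨φ⟩ := hφ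
      refine key true (fun y => φ y) φ.injective ?_
      intro y z hyz
      have h : (gr ω).Adj (φ y) (φ z) := φ.toHom.map_adj hyz
      exact h.2
    · obtain ⟨φ⟩ := hφ
      refine key false (fun y => φ y) φ.injective ?_
      intro y z hyz
      have h : (gr ω)ᶜ.Adj (φ y) (φ z) := φ.toHom.map_adj hyz
      rw [SimpleGraph.compl_adj] at h
      by_contra hne
      exact h.2 ⟨h.1, by simpa using hne⟩
  · push Not at hdom
    let R : SimpleGraph (Fin (n + m - 1)) :=
      { Adj := fun x y => x ≠ y ∧ ((x : ℕ) < m ∨ (y : ℕ) < m)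
        symm := ⟨fun x y h => ⟨h.1.symm, h.2.symm⟩⟩
        loopless := ⟨fun x h => h.1 rfl⟩ }
    rcases hA R with hφ | hφ
    · obtain ⟨φ⟩ := hφ
      have hinj : Function.Injective (fun y => φ y) := φ.injective
      set D₀ : Finset (Fin n) := univ.filter (fun y => ((φ y : Fin _) : ℕ) < m) with hD₀
      have hcard : D₀.card ≤ m := by
        have : D₀.card ≤ (range m).card := by
          refine Finset.card_le_card_of_injOn (fun y => ((φ y : Fin _) : ℕ)) ?_ ?_
          · intro y hy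
            have hy' : y ∈ D₀ := hy
            rw [hD₀, mem_filter] at hy'
            simpa using hy'.2
          · intro y _ z _ hyz
            exact hinj (Fin.ext hyz)
        simpa using this
      obtain ⟨y, hy, hall⟩ := hdom D₀ hcard
      obtain ⟨z, hyz⟩ := hG y
      have h : R.Adj (φ y) (φ z) := φ.toHom.map_adj hyz
      have hy' : ¬ ((φ y : Fin _) : ℕ) < m := by
        intro h'
        exact hy (by rw [hD₀, mem_filter]; exact ⟨mem_univ _, h'⟩)
      rcases h.2 with h' | h'
      · exact hy' h'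
      · exact hall z (by rw [hD₀, mem_filter]; exact ⟨mem_univ _, h'⟩) hyz
    · obtain ⟨φ⟩ := hφ
      have hinj : Function.Injective (fun y => φ y) := φ.injective
      have hge : ∀ y, m ≤ ((φ y : Fin _) : ℕ) := by
        intro y
        obtain ⟨z, hyz⟩ := hG y
        have h : Rᶜ.Adj (φ y) (φ z) := φ.toHom.map_adj hyz
        rw [SimpleGraph.compl_adj] at h
        by_contra hlt
        exact h.2 ⟨h.1, Or.inl (by omega)⟩
      have : (univ : Finset (Fin n)).card ≤ (range (n - 1)).card := by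
        refine Finset.card_le_card_of_injOn (fun y => ((φ y : Fin _) : ℕ) - m) ?_ ?_
        · intro y _
          have h1 := hge y
          have h2 := (φ y).2
          simp only [coe_range, Set.mem_Iio]
          omega
        · intro y _ z _ hyz
          have h1 := hge y
          have h2 := hge z
          refine hinj (Fin.ext ?_)
          simp only at hyz ⊢
          omega
      rw [card_univ, Fintype.card_fin, card_range] at this
      omega

theorem Arrows.mono {N M : ℕ} (h : N ≤ M) {V : Type} {G : SimpleGraph V}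
    (hG : Arrows N G) : Arrows M G := by
  intro R
  have key : ∀ Q : SimpleGraph (Fin M), G.IsContained (Q.comap (Fin.castLE h)) →
      G.IsContained Q := by
    intro Q hQ
    exact hQ.trans ⟨⟨⟨Fin.castLE h, fun {a b} hab => hab⟩, Fin.castLE_injective h⟩⟩
  rcases hG (R.comap (Fin.castLE h)) with h1 | h1
  · exact Or.inl (key R h1)
  · refine Or.inr (key Rᶜ (h1.trans ?_))
    refine ⟨⟨⟨id, ?_⟩, Function.injective_id⟩⟩
    intro a b hab
    rw [SimpleGraph.compl_adj] at hab
    simp only [SimpleGraph.comap_adj, SimpleGraph.compl_adj, id]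
    exact ⟨fun he => hab.1 (Fin.castLE_injective h he), hab.2⟩

theorem two_mul_pow_le (b : ℕ) : 2 * b ^ (b + 1) ≤ (b + 1) ^ (b + 1) := by
  have h1 : (1 : ℝ) + ((b + 1 : ℕ) : ℝ) * (1 / (b : ℝ)) ≤ (1 + 1 / (b : ℝ)) ^ (b + 1) :=
    one_add_mul_le_pow (by
      have : (0 : ℝ) ≤ 1 / (b : ℝ) := by positivity
      linarith) _
  rcases Nat.eq_zero_or_pos b with hb | hb
  · subst hb; simp
  · have hb' : (0 : ℝ) < b := by exact_mod_cast hb
    have h2 : (2 : ℝ) ≤ (1 + 1 / (b : ℝ)) ^ (b + 1) := by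
      refine le_trans ?_ h1
      have : ((b + 1 : ℕ) : ℝ) * (1 / (b : ℝ)) = 1 + 1 / b := by
        push_cast; field_simp
      rw [this]
      have : (0 : ℝ) ≤ 1 / (b : ℝ) := by positivity
      linarith
    have h3 : (1 + 1 / (b : ℝ)) ^ (b + 1) * (b : ℝ) ^ (b + 1) = ((b : ℝ) + 1) ^ (b + 1) := by
      rw [← mul_pow]
      congr 1
      field_simp
    have h4 : (2 : ℝ) * (b : ℝ) ^ (b + 1) ≤ ((b : ℝ) + 1) ^ (b + 1) := by
      rw [← h3]
      exact mul_le_mul_of_nonneg_right h2 (by positivity)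
    exact_mod_cast h4

/-- The numerical inequality. -/
theorem numeric (n l m : ℕ) (hm : 1 ≤ m) (hn : n < 2 ^ (l + 1)) (hml : m ≤ l)
    (h8 : 2 ^ m * (8 * (l + 2) ^ 2) ≤ n) :
    2 * ((n + m - 1) ^ (m + (m - 1)) * (2 ^ m - 1) ^ (n - m)) < (2 ^ m) ^ (n - m) := by
  obtain ⟨b, hb⟩ : ∃ b, 2 ^ m = b + 1 := ⟨2 ^ m - 1, by have : 1 ≤ 2 ^ m := Nat.one_le_two_pow
                                                        omega⟩
  have hbpos : 1 ≤ b := by
    have : 2 ^ 1 ≤ 2 ^ m := Nat.pow_le_pow_right (by norm_num) hm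
    omega
  have hmpow : m < 2 ^ m := Nat.lt_two_pow_self
  -- `q` blocks of length `2 ^ m`
  set q := 2 * (l + 2) ^ 2 + 1 with hq
  have hq1 : 2 ^ m * q ≤ n - m := by
    have : 2 ^ m * q + m ≤ n := by
      have h9 : 2 ^ m * q + m ≤ 2 ^ m * (8 * (l + 2) ^ 2) := by
        rw [hq]
        have : 4 ≤ (l + 2) ^ 2 := by nlinarith
        nlinarith
      omega
    omega
  obtain ⟨r, hr⟩ : ∃ r, n - m = (b + 1) * q + r := ⟨n - m - (b + 1) * q, by
    rw [hb] at hq1; omega⟩
  have h1 : 2 ^ q * b ^ (n - m) ≤ (b + 1) ^ (n - m) := by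
    clear_value q
    have e1 : b ^ (n - m) = (b ^ (b + 1)) ^ q * b ^ r := by rw [hr, pow_add, pow_mul]
    have e2 : (b + 1) ^ (n - m) = ((b + 1) ^ (b + 1)) ^ q * (b + 1) ^ r := by
      rw [hr, pow_add, pow_mul]
    rw [e1, e2]
    calc 2 ^ q * ((b ^ (b + 1)) ^ q * b ^ r) = (2 * b ^ (b + 1)) ^ q * b ^ r := by
          rw [mul_pow]; ring
      _ ≤ ((b + 1) ^ (b + 1)) ^ q * (b + 1) ^ r :=
          Nat.mul_le_mul (Nat.pow_le_pow_left (two_mul_pow_le b) q)
            (Nat.pow_le_pow_left (by omega) r)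
  have h2 : 2 * (n + m - 1) ^ (m + (m - 1)) < 2 ^ q := by
    have h3 : n + m - 1 ≤ 2 ^ (l + 2) := by
      have : 2 ^ m ≤ 2 ^ l := Nat.pow_le_pow_right (by norm_num) hml
      rw [pow_succ] at hn
      rw [pow_succ, pow_succ]
      omega
    calc 2 * (n + m - 1) ^ (m + (m - 1)) ≤ 2 * (2 ^ (l + 2)) ^ (m + (m - 1)) :=
          Nat.mul_le_mul_left _ (Nat.pow_le_pow_left h3 _)
      _ ≤ 2 * (2 ^ (l + 2)) ^ (2 * l) := by
          apply Nat.mul_le_mul_left
          apply Nat.pow_le_pow_right (by positivity)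
          omega
      _ = 2 ^ ((l + 2) * (2 * l) + 1) := by
          rw [← pow_mul, pow_succ]; ring
      _ < 2 ^ q := by
          apply Nat.pow_lt_pow_right (by norm_num)
          rw [hq]
          nlinarith
  have hbp : 0 < b ^ (n - m) := by positivity
  calc 2 * ((n + m - 1) ^ (m + (m - 1)) * (2 ^ m - 1) ^ (n - m))
      = (2 * (n + m - 1) ^ (m + (m - 1))) * b ^ (n - m) := by
        rw [hb, Nat.add_sub_cancel]; ring
    _ < 2 ^ q * b ^ (n - m) := Nat.mul_lt_mul_of_pos_right h2 hbp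
    _ ≤ (b + 1) ^ (n - m) := h1
    _ = (2 ^ m) ^ (n - m) := by rw [hb]

/-- Lower bound for `f`: with `l = ⌊log₂ n⌋` and `c = ⌈log₂ (l + 2)⌉`. -/
theorem le_f (n : ℕ) (hn : 2 ≤ n)
    (hm : 2 * Nat.clog 2 (Nat.log 2 n + 2) + 4 ≤ Nat.log 2 n) :
    n + (Nat.log 2 n - 2 * Nat.clog 2 (Nat.log 2 n + 2) - 3) ≤ f n := by
  set l := Nat.log 2 n with hl
  set c := Nat.clog 2 (l + 2) with hc
  set m := l - 2 * c - 3 with hmdef
  have hm1 : 1 ≤ m := by omega
  have hn2 : n < 2 ^ (l + 1) := Nat.lt_pow_succ_log_self (by norm_num) n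
  have hn1 : 2 ^ l ≤ n := Nat.pow_log_le_self 2 (by omega)
  have hc1 : l + 2 ≤ 2 ^ c := Nat.le_pow_clog (by norm_num) _
  have h8 : 2 ^ m * (8 * (l + 2) ^ 2) ≤ n := by
    calc 2 ^ m * (8 * (l + 2) ^ 2) ≤ 2 ^ m * (8 * (2 ^ c) ^ 2) := by
          apply Nat.mul_le_mul_left
          apply Nat.mul_le_mul_left
          exact Nat.pow_le_pow_left hc1 2
      _ = 2 ^ l := by
          rw [← pow_mul, show (8 : ℕ) = 2 ^ 3 by norm_num, ← pow_add, ← pow_add]
          congr 1
          omega
      _ ≤ n := hn1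
  have hne : {r | ∃ G : SimpleGraph (Fin n), (∀ v, ∃ w, G.Adj v w) ∧
      IsLeast {N | Arrows N G} r}.Nonempty := by
    obtain ⟨G, hG, r, hr, _⟩ := upper n hn
    exact ⟨r, G, hG, hr⟩
  obtain ⟨G, hG, hr⟩ := Nat.sInf_mem hne
  have hmn : m ≤ n := by
    have : m < 2 ^ m := Nat.lt_two_pow_self
    have h9 : 2 ^ m ≤ 2 ^ l := Nat.pow_le_pow_right (by norm_num) (by omega)
    omega
  have hnot := lower_aux n m hm1 hmn (numeric n l m hm1 hn2 (by omega) h8) G hG
  by_contra hcon
  push Not at hcon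
  have hA : Arrows (f n) G := hr.1
  exact hnot (hA.mono (by omega))


open Filter Topology in
theorem loglog_div : Tendsto (fun n : ℕ => Real.logb 2 (Real.logb 2 n) / Real.logb 2 n)
    atTop (𝓝 0) := by
  have h1 : Tendsto (fun x : ℝ => Real.logb 2 x / x) atTop (𝓝 0) := by
    have h2 : Tendsto (fun x : ℝ => Real.log x / x) atTop (𝓝 0) := by
      have := Real.isLittleO_log_id_atTop.tendsto_div_nhds_zero
      simpa using this
    have h3 : (fun x : ℝ => Real.logb 2 x / x) = fun x => (Real.log x / x) * (1 / Real.log 2) := by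
      funext x; rw [Real.logb]; ring
    rw [h3]
    simpa using h2.mul_const (1 / Real.log 2)
  have h4 : Tendsto (fun n : ℕ => Real.logb 2 (n : ℝ)) atTop atTop :=
    (Real.tendsto_logb_atTop (by norm_num)).comp tendsto_natCast_atTop_atTop
  exact h1.comp h4

open Filter Topology in
theorem eventually_lower : ∀ᶠ n : ℕ in atTop,
    (n : ℝ) + Real.logb 2 n - 2 * Real.logb 2 (Real.logb 2 n) - 8 ≤ f n := by
  have h4 : Tendsto (fun n : ℕ => Real.logb 2 (n : ℝ)) atTop atTop :=
    (Real.tendsto_logb_atTop (by norm_num)).comp tendsto_natCast_atTop_atTop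
  have h5 : ∀ᶠ n : ℕ in atTop, Real.logb 2 (Real.logb 2 n) / Real.logb 2 n < 1 / 4 :=
    loglog_div.eventually (gt_mem_nhds (by norm_num))
  filter_upwards [eventually_ge_atTop 2, h4.eventually_ge_atTop 18, h5] with n hn h18 h5
  have hl1 : (Nat.log 2 n : ℝ) ≤ Real.logb 2 n := by exact_mod_cast Real.natLog_le_logb n 2
  have hl2 : Real.logb 2 n < (Nat.log 2 n : ℝ) + 1 := by
    have h6 : (n : ℝ) < 2 ^ (Nat.log 2 n + 1) := by
      exact_mod_cast Nat.lt_pow_succ_log_self (by norm_num) n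
    have h7 : Real.logb 2 n < Real.logb 2 ((2 : ℝ) ^ (Nat.log 2 n + 1)) :=
      Real.logb_lt_logb (by norm_num) (by positivity) h6
    rw [Real.logb_pow, Real.logb_self_eq_one (by norm_num)] at h7
    push_cast at h7
    linarith
  set L := Real.logb 2 n with hL
  have hLpos : 0 < L := by linarith
  have h8 : Real.logb 2 L < L / 4 := by
    rw [div_lt_iff₀ hLpos] at h5
    linarith
  have hc : (Nat.clog 2 (Nat.log 2 n + 2) : ℝ) ≤ Real.logb 2 L + 2 := by
    have h9 : (Nat.clog 2 (Nat.log 2 n + 2) : ℝ) <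
        Real.logb 2 ((Nat.log 2 n + 2 : ℕ) : ℝ) + 1 := by
      rw [← Real.natCeil_logb_natCast 2 (Nat.log 2 n + 2)]
      apply Nat.ceil_lt_add_one
      apply Real.logb_nonneg (by norm_num)
      push_cast
      have : (0 : ℝ) ≤ (Nat.log 2 n : ℝ) := by positivity
      linarith
    have h10 : Real.logb 2 ((Nat.log 2 n + 2 : ℕ) : ℝ) ≤ Real.logb 2 (2 * L) := by
      apply Real.logb_le_logb_of_le (by norm_num)
      · push_cast; positivity
      · push_cast; linarith
    rw [Real.logb_mul (by norm_num) hLpos.ne', Real.logb_self_eq_one (by norm_num)] at h10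
    linarith
  have hcond : 2 * Nat.clog 2 (Nat.log 2 n + 2) + 4 ≤ Nat.log 2 n := by
    have : (2 * (Nat.clog 2 (Nat.log 2 n + 2) : ℝ) + 4) ≤ (Nat.log 2 n : ℝ) := by linarith
    exact_mod_cast this
  have hmain := le_f n hn hcond
  have hmain' : (n : ℝ) + ((Nat.log 2 n : ℝ) - 2 * (Nat.clog 2 (Nat.log 2 n + 2) : ℝ) - 3) ≤
      f n := by
    have h11 : ((n + (Nat.log 2 n - 2 * Nat.clog 2 (Nat.log 2 n + 2) - 3) : ℕ) : ℝ) ≤ (f n : ℝ) := by
      exact_mod_cast hmain
    rw [Nat.cast_add, Nat.cast_sub (by omega), Nat.cast_sub (by omega)] at h11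
    push_cast at h11
    exact h11
  linarith

open Filter Topology in
/-- **Main result.** `n + log₂ n - 2 log₂ log₂ n - 8 ≤ f n` for all large `n`, and
`f n ≤ n + log₂ n + 4` for all `n ≥ 2`; consequently `(f n - n) / log₂ n → 1`. -/
theorem result :
    (∀ n : ℕ, 2 ≤ n → (f n : ℝ) ≤ n + Real.logb 2 n + 4) ∧
    (∀ᶠ n : ℕ in atTop, (n : ℝ) + Real.logb 2 n - 2 * Real.logb 2 (Real.logb 2 n) - 8 ≤ f n) ∧
    Tendsto (fun n : ℕ => ((f n : ℝ) - n) / Real.logb 2 n) atTop (𝓝 1) := by
  have hupper : ∀ n : ℕ, 2 ≤ n → (f n : ℝ) ≤ n + Real.logb 2 n + 4 := by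
    intro n hn
    have h1 : (f n : ℝ) ≤ ((n + Nat.log 2 n + 4 : ℕ) : ℝ) := by exact_mod_cast f_le n hn
    have h2 : (Nat.log 2 n : ℝ) ≤ Real.logb 2 n := by exact_mod_cast Real.natLog_le_logb n 2
    push_cast at h1
    linarith
  refine ⟨hupper, eventually_lower, ?_⟩
  have h4 : Tendsto (fun n : ℕ => Real.logb 2 (n : ℝ)) atTop atTop :=
    (Real.tendsto_logb_atTop (by norm_num)).comp tendsto_natCast_atTop_atTop
  have hc : ∀ C : ℝ, Tendsto (fun n : ℕ => C / Real.logb 2 (n : ℝ)) atTop (𝓝 0) :=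
    fun C => tendsto_const_nhds.div_atTop h4
  have hlow : Tendsto (fun n : ℕ => 1 - 2 * (Real.logb 2 (Real.logb 2 n) / Real.logb 2 n) -
      8 / Real.logb 2 n) atTop (𝓝 1) := by
    have := ((tendsto_const_nhds (x := (1 : ℝ))).sub (loglog_div.const_mul 2)).sub (hc 8)
    simpa using this
  have hup : Tendsto (fun n : ℕ => 1 + 4 / Real.logb 2 (n : ℝ)) atTop (𝓝 1) := by
    have := (tendsto_const_nhds (x := (1 : ℝ))).add (hc 4)
    simpa using this
  refine tendsto_of_tendsto_of_tendsto_of_le_of_le' hlow hup ?_ ?_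
  · filter_upwards [eventually_lower, h4.eventually_ge_atTop 1] with n h1 h2
    have hpos : 0 < Real.logb 2 (n : ℝ) := by linarith
    rw [le_div_iff₀ hpos]
    have e1 : (1 - 2 * (Real.logb 2 (Real.logb 2 n) / Real.logb 2 n) - 8 / Real.logb 2 n) *
        Real.logb 2 n = Real.logb 2 n - 2 * Real.logb 2 (Real.logb 2 n) - 8 := by
      field_simp
    rw [e1]
    linarith
  · filter_upwards [eventually_ge_atTop 2, h4.eventually_ge_atTop 1] with n h1 h2
    have hpos : 0 < Real.logb 2 (n : ℝ) := by linarith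
    rw [div_le_iff₀ hpos]
    have e1 : (1 + 4 / Real.logb 2 (n : ℝ)) * Real.logb 2 n = Real.logb 2 n + 4 := by
      field_simp
    rw [e1]
    have := hupper n h1
    linarith

end Pool.Agent.Results.MP_624632_co.LogAsymptotics
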